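import Pool.Agent.W2helper86.PL.Defs

/-!
# A program which asks for a code string

A flat register machine program computes `2 ^ (D * (size n + 1) ^ k)`, where `n` is the length of
the input `x`, writes `1^e 0 1^a 0 x` (`a` the computed number) on the query tape and asks.
-/

namespace Pool.Agent.W2helper65.PL

open Pool.Agent.NPC Pool.Agent.H620R2.Gauge Pool.Agent.W2helper86.PL

/-! ### Runs with bounded registers -/

section Runs

variable (P : List Ins) (A : Oracle) (x : List Bool) (S : ℕ)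

/-- all registers are less than `2 ^ S` -/
def Bd (ρ : ℕ → ℕ) : Prop := ∀ r, ρ r < 2 ^ S

/-- one step into a bounded state -/
def St (c c' : State × List Bool) : Prop := Step P A x [] c c' ∧ Bd S c'.1.reg

/-- steps through bounded states -/
def Rn (c c' : State × List Bool) : Prop := Relation.ReflTransGen (St P A x S) c c'

variable {P A x S}

theorem Rn.refl (c) : Rn P A x S c c := Relation.ReflTransGen.refl

theorem Rn.trans {c c' c''} (h : Rn P A x S c c') (h' : Rn P A x S c' c'') : Rn P A x S c c'' :=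
  Relation.ReflTransGen.trans h h'

theorem Rn.one {pc pc' : ℕ} {ρ ρ' : ℕ → ℕ} {q w : List Bool} {i : Ins} (h : P[pc]? = some i)
    (he : i.exec x [] ⟨pc, ρ⟩ = some (⟨pc', ρ'⟩, w)) (hb : Bd S ρ') :
    Rn P A x S (⟨pc, ρ⟩, q) (⟨pc', ρ'⟩, q ++ w) :=
  Relation.ReflTransGen.single ⟨Step.plain (σ := ⟨pc, ρ⟩) h he, hb⟩

/-- a step that writes nothing -/
theorem Rn.one' {pc pc' : ℕ} {ρ ρ' : ℕ → ℕ} {q : List Bool} {i : Ins} (h : P[pc]? = some i)
    (he : i.exec x [] ⟨pc, ρ⟩ = some (⟨pc', ρ'⟩, [])) (hb : Bd S ρ') :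
    Rn P A x S (⟨pc, ρ⟩, q) (⟨pc', ρ'⟩, q) := by
  have := Rn.one (A := A) (q := q) h he hb
  rwa [List.append_nil] at this

/-- without `guess` the steps are deterministic -/
theorem step_det (hg : ∀ l, Ins.guess l ∉ P) {a : List Bool} {c c' c'' : State × List Bool}
    (h : Step P A x a c c') (h' : Step P A x a c c'') : c' = c'' := by
  cases h with
  | plain h1 h2 =>
    cases h' with
    | plain h3 h4 =>
      rw [h1] at h3
      cases h3
      rw [h2] at h4
      cases h4
      rfl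
    | ask h3 =>
      rw [h1] at h3
      cases h3
      simp [Ins.exec] at h2
    | stay h3 =>
      rw [h1] at h3
      cases h3
      simp [Ins.exec] at h2
    | jump h3 =>
      rw [h1] at h3
      cases h3
      simp [Ins.exec] at h2
  | ask h1 =>
    cases h' with
    | plain h3 h4 =>
      rw [h1] at h3
      cases h3
      simp [Ins.exec] at h4
    | ask h3 =>
      rw [h1] at h3
      cases h3
      rfl
    | stay h3 =>
      rw [h1] at h3
      cases h3
    | jump h3 =>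
      rw [h1] at h3
      cases h3
  | stay h1 => exact absurd (List.mem_of_getElem? h1) (hg _)
  | jump h1 => exact absurd (List.mem_of_getElem? h1) (hg _)

theorem stuck {a : List Bool} {c c' : State × List Bool} {b : Bool}
    (hb : P[c.1.pc]? = some (Ins.halt b)) (h : Step P A x a c c') : False := by
  cases h with
  | plain h1 h2 =>
    rw [hb] at h1
    cases h1
    simp [Ins.exec] at h2
  | ask h1 =>
    rw [hb] at h1
    cases h1
  | stay h1 =>
    rw [hb] at h1
    cases h1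
  | jump h1 =>
    rw [hb] at h1
    cases h1

/-- All states reached are bounded if a bounded run stops. -/
theorem bounded_of_run (hg : ∀ l, Ins.guess l ∉ P) {c₀ c₁ : State × List Bool} {b : Bool}
    (h : Rn P A x S c₀ c₁) (h₀ : Bd S c₀.1.reg) (hb : P[c₁.1.pc]? = some (Ins.halt b))
    {c : State × List Bool} (hc : Relation.ReflTransGen (Step P A x []) c₀ c) :
    Bd S c.1.reg := by
  induction h using Relation.ReflTransGen.head_induction_on with
  | refl =>
    rcases Relation.ReflTransGen.cases_head hc with h1 | ⟨d, h1, -⟩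
    · rw [← h1]
      exact h₀
    · exact (stuck hb h1).elim
  | head h1 _ ih =>
    rcases Relation.ReflTransGen.cases_head hc with h3 | ⟨d, h3, h4⟩
    · rw [← h3]
      exact h₀
    · have := step_det hg h3 h1.1
      subst this
      exact ih h1.2 h4

theorem halts_of_run {c₁ : State × List Bool} {b : Bool}
    (h : Rn P A x S (⟨0, fun _ => 0⟩, []) c₁) (hb : P[c₁.1.pc]? = some (Ins.halt b)) :
    Halts P A x [] b :=
  ⟨c₁, Relation.ReflTransGen.mono (r := St P A x S) (fun _ _ h' => h'.1) _ _ h, hb⟩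

end Runs

/-! ### Blocks of code -/

/-- the block `b` is in the program from line `o` on -/
def At (P : List Ins) (o : ℕ) (b : List Ins) : Prop := ∀ j, j < b.length → P[o + j]? = b[j]?

theorem At.head {P : List Ins} {o : ℕ} {i : Ins} {b : List Ins} (h : At P o (i :: b)) :
    P[o]? = some i := by
  have := h 0 (by simp)
  simpa using this

theorem At.tail {P : List Ins} {o : ℕ} {i : Ins} {b : List Ins} (h : At P o (i :: b)) :
    At P (o + 1) b := by
  intro j hj
  have := h (j + 1) (by simpa using hj)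
  rw [show o + 1 + j = o + (j + 1) by ring, this]
  simp

theorem At.left {P : List Ins} {o : ℕ} {b b' : List Ins} (h : At P o (b ++ b')) : At P o b := by
  intro j hj
  rw [h j (by rw [List.length_append]; omega), List.getElem?_append_left hj]

theorem At.right {P : List Ins} {o : ℕ} {b b' : List Ins} (h : At P o (b ++ b')) :
    At P (o + b.length) b' := by
  intro j hj
  rw [show o + b.length + j = o + (b.length + j) by ring,
    h (b.length + j) (by rw [List.length_append]; omega),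
    List.getElem?_append_right (by omega)]
  congr 1
  omega

/-! ### The registers -/

/-- the registers: `0` is always zero, `1 = n`, `2 = L`, `3 = M`, `4 = t`, `5 = c`, `6 = a`,
`7 = u` -/
def Rg (n L M t c a u : ℕ) : ℕ → ℕ
  | 1 => n
  | 2 => L
  | 3 => M
  | 4 => t
  | 5 => c
  | 6 => a
  | 7 => u
  | _ => 0

section Regs

variable {n L M t c a u v S : ℕ}

theorem bd_Rg : Bd S (Rg n L M t c a u) ↔
    n < 2 ^ S ∧ L < 2 ^ S ∧ M < 2 ^ S ∧ t < 2 ^ S ∧ c < 2 ^ S ∧ a < 2 ^ S ∧ u < 2 ^ S := by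
  constructor
  · intro h
    exact ⟨h 1, h 2, h 3, h 4, h 5, h 6, h 7⟩
  · rintro ⟨h1, h2, h3, h4, h5, h6, h7⟩ r
    match r with
    | 0 => exact Nat.two_pow_pos S
    | 1 => exact h1
    | 2 => exact h2
    | 3 => exact h3
    | 4 => exact h4
    | 5 => exact h5
    | 6 => exact h6
    | 7 => exact h7
    | r + 8 => exact Nat.two_pow_pos S

theorem up1 : Function.update (Rg n L M t c a u) 1 v = Rg v L M t c a u := by
  funext r
  match r with
  | 0 | 1 | 2 | 3 | 4 | 5 | 6 | 7 => rfl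
  | r + 8 => rfl

theorem up2 : Function.update (Rg n L M t c a u) 2 v = Rg n v M t c a u := by
  funext r
  match r with
  | 0 | 1 | 2 | 3 | 4 | 5 | 6 | 7 => rfl
  | r + 8 => rfl

theorem up3 : Function.update (Rg n L M t c a u) 3 v = Rg n L v t c a u := by
  funext r
  match r with
  | 0 | 1 | 2 | 3 | 4 | 5 | 6 | 7 => rfl
  | r + 8 => rfl

theorem up4 : Function.update (Rg n L M t c a u) 4 v = Rg n L M v c a u := by
  funext r
  match r with
  | 0 | 1 | 2 | 3 | 4 | 5 | 6 | 7 => rfl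
  | r + 8 => rfl

theorem up5 : Function.update (Rg n L M t c a u) 5 v = Rg n L M t v a u := by
  funext r
  match r with
  | 0 | 1 | 2 | 3 | 4 | 5 | 6 | 7 => rfl
  | r + 8 => rfl

theorem up6 : Function.update (Rg n L M t c a u) 6 v = Rg n L M t c v u := by
  funext r
  match r with
  | 0 | 1 | 2 | 3 | 4 | 5 | 6 | 7 => rfl
  | r + 8 => rfl

theorem up7 : Function.update (Rg n L M t c a u) 7 v = Rg n L M t c a v := by
  funext r
  match r with
  | 0 | 1 | 2 | 3 | 4 | 5 | 6 | 7 => rfl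
  | r + 8 => rfl

end Regs

/-! ### The blocks -/

/-- `n := |x|` -/
def cnt (o : ℕ) : List Ins := [.jend 1 (o + 3), .add 1 1 7, .jzero 0 o]

/-- `L := size n + 1` -/
def siz (o : ℕ) : List Ins :=
  [.set 2 1, .jzero 1 (o + 5), .half 1 1, .add 2 2 7, .jzero 0 (o + 1)]

/-- `M := M * L` -/
def mul (o : ℕ) : List Ins :=
  [.set 4 0, .add 5 2 0, .jzero 5 (o + 6), .add 4 4 3, .sub 5 5 7, .jzero 0 (o + 2), .add 3 4 0]

/-- `M := M * L ^ k` -/
def muls : ℕ → ℕ → List Ins
  | _, 0 => []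
  | o, k + 1 => mul o ++ muls (o + 7) k

/-- `a := 2 ^ M` -/
def pow (o : ℕ) : List Ins :=
  [.set 6 1, .jzero 3 (o + 5), .add 6 6 6, .sub 3 3 7, .jzero 0 (o + 1)]

/-- write `1^e 0` -/
def pre (e : ℕ) : List Ins := List.replicate e (.put true) ++ [.put false]

/-- write `1^a 0` -/
def wra (o : ℕ) : List Ins :=
  [.jzero 6 (o + 4), .put true, .sub 6 6 7, .jzero 0 o, .put false]

/-- write the input -/
def cpy (o : ℕ) : List Ins :=
  [.jend 1 (o + 7), .jbit 1 (o + 4), .put false, .jzero 0 (o + 5), .put true, .add 1 1 7,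
    .jzero 0 o]

/-- ask and answer -/
def fin (o : ℕ) : List Ins := [.ask (o + 2), .halt false, .halt true]

section Blocks

variable {P : List Ins} {A : Oracle} {x : List Bool} {S o n L M t c a e : ℕ} {q : List Bool}

theorem run_cnt (h : At P o (cnt o)) (hx : x.length < 2 ^ S) (m : ℕ) (hn : n + m = x.length)
    (hb : Bd S (Rg n L M t c a 1)) :
    Rn P A x S (⟨o, Rg n L M t c a 1⟩, q) (⟨o + 3, Rg x.length L M t c a 1⟩, q) := by
  have h0 := h.head
  have h1 := h.tail.head
  have h2 := h.tail.tail.head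
  induction m generalizing n with
  | zero =>
    have : n = x.length := by omega
    subst this
    refine Rn.one' h0 ?_ hb
    simp [Ins.exec, Rg]
  | succ m ih =>
    rw [bd_Rg] at hb
    have hb' : Bd S (Rg (n + 1) L M t c a 1) := bd_Rg.2 ⟨by omega, hb.2⟩
    refine Rn.trans (Rn.one' h0 (pc' := o + 1) ?_ (bd_Rg.2 hb)) (Rn.trans (Rn.one' h1 (pc' := o + 1 + 1)
      (ρ' := Rg (n + 1) L M t c a 1) ?_ hb')
      (Rn.trans (Rn.one' h2 (pc' := o) (ρ' := Rg (n + 1) L M t c a 1) ?_ hb')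
      (ih (by omega) hb')))
    · have : ¬ x.length ≤ n := by omega
      simp [Ins.exec, Rg, this]
    · simp only [Ins.exec, up1]
      rfl
    · simp [Ins.exec, Rg]

theorem run_siz_loop (h1 : P[o + 1]? = some (.jzero 1 (o + 5)))
    (h2 : P[o + 2]? = some (.half 1 1)) (h3 : P[o + 3]? = some (.add 2 2 7))
    (h4 : P[o + 4]? = some (.jzero 0 (o + 1))) (hn : n < 2 ^ S) (hL : L + Nat.size n < 2 ^ S)
    (hb : Bd S (Rg n L M t c a 1)) :
    Rn P A x S (⟨o + 1, Rg n L M t c a 1⟩, q) (⟨o + 5, Rg 0 (L + Nat.size n) M t c a 1⟩, q) := by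
  induction n using Nat.strong_induction_on generalizing L with
  | _ n ih =>
    rcases Nat.eq_zero_or_pos n with rfl | hpos
    · refine Rn.one' h1 ?_ (by simpa using hb)
      simp [Ins.exec, Rg]
    · have hs : Nat.size n = Nat.size (n / 2) + 1 := by
        have h' : 0 < Nat.size n := Nat.size_pos.2 hpos
        apply le_antisymm
        · rw [Nat.size_le, pow_succ]
          have := Nat.lt_size_self (n / 2)
          omega
        · have : Nat.size (n / 2) ≤ Nat.size n - 1 := by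
            rw [Nat.size_le]
            have h1 := Nat.lt_size_self n
            obtain ⟨s, hs⟩ : ∃ s, Nat.size n = s + 1 := ⟨Nat.size n - 1, by omega⟩
            rw [hs] at h1 ⊢
            rw [pow_succ] at h1
            rw [Nat.add_sub_cancel]
            omega
          omega
      rw [bd_Rg] at hb
      have hb' : Bd S (Rg (n / 2) L M t c a 1) := bd_Rg.2 ⟨by omega, hb.2⟩
      have hb'' : Bd S (Rg (n / 2) (L + 1) M t c a 1) :=
        bd_Rg.2 ⟨by omega, by omega, hb.2.2⟩
      refine Rn.trans (Rn.one' h1 (pc' := o + 2) ?_ (bd_Rg.2 hb)) (Rn.trans (Rn.one' h2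
        (pc' := o + 3) (ρ' := Rg (n / 2) L M t c a 1) ?_ hb')
        (Rn.trans (Rn.one' h3 (pc' := o + 4) (ρ' := Rg (n / 2) (L + 1) M t c a 1) ?_ hb'')
        (Rn.trans (Rn.one' h4 (pc' := o + 1) (ρ' := Rg (n / 2) (L + 1) M t c a 1) ?_ hb'') ?_)))
      · have : n ≠ 0 := by omega
        simp [Ins.exec, Rg, this]
      · simp only [Ins.exec, up1]
        rfl
      · simp only [Ins.exec, up2]
        rfl
      · simp [Ins.exec, Rg]
      · have := ih (n / 2) (by omega) (L := L + 1) (by omega) (by omega) hb''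
        rwa [show L + 1 + Nat.size (n / 2) = L + Nat.size n by omega] at this

theorem run_siz (h : At P o (siz o)) (hn : n < 2 ^ S) (hL : 1 + Nat.size n < 2 ^ S)
    (hb : Bd S (Rg n L M t c a 1)) :
    Rn P A x S (⟨o, Rg n L M t c a 1⟩, q) (⟨o + 5, Rg 0 (1 + Nat.size n) M t c a 1⟩, q) := by
  rw [bd_Rg] at hb
  have hb' : Bd S (Rg n 1 M t c a 1) := bd_Rg.2 ⟨hb.1, by omega, hb.2.2⟩
  refine Rn.trans (Rn.one' h.head (pc' := o + 1) (ρ' := Rg n 1 M t c a 1) ?_ hb')
    (run_siz_loop h.tail.head h.tail.tail.head h.tail.tail.tail.head h.tail.tail.tail.tail.head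
      hn hL hb')
  simp only [Ins.exec, up2]

theorem run_mul_loop (h2 : P[o + 2]? = some (.jzero 5 (o + 6)))
    (h3 : P[o + 3]? = some (.add 4 4 3)) (h4 : P[o + 4]? = some (.sub 5 5 7))
    (h5 : P[o + 5]? = some (.jzero 0 (o + 2))) (ht : t + M * c < 2 ^ S)
    (hb : Bd S (Rg n L M t c a 1)) :
    Rn P A x S (⟨o + 2, Rg n L M t c a 1⟩, q) (⟨o + 6, Rg n L M (t + M * c) 0 a 1⟩, q) := by
  induction c generalizing t with
  | zero =>
    refine Rn.one' h2 ?_ (by simpa using hb)
    simp [Ins.exec, Rg]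
  | succ c ih =>
    rw [bd_Rg] at hb
    have e : t + M * (c + 1) = t + M + M * c := by ring
    have hb' : Bd S (Rg n L M (t + M) (c + 1) a 1) :=
      bd_Rg.2 ⟨hb.1, hb.2.1, hb.2.2.1, by omega, hb.2.2.2.2⟩
    have hb'' : Bd S (Rg n L M (t + M) c a 1) :=
      bd_Rg.2 ⟨hb.1, hb.2.1, hb.2.2.1, by omega, by omega, hb.2.2.2.2.2⟩
    refine Rn.trans (Rn.one' h2 (pc' := o + 3) ?_ (bd_Rg.2 hb)) (Rn.trans (Rn.one' h3
      (pc' := o + 4) (ρ' := Rg n L M (t + M) (c + 1) a 1) ?_ hb')
      (Rn.trans (Rn.one' h4 (pc' := o + 5) (ρ' := Rg n L M (t + M) c a 1) ?_ hb'')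
      (Rn.trans (Rn.one' h5 (pc' := o + 2) (ρ' := Rg n L M (t + M) c a 1) ?_ hb'') ?_)))
    · simp [Ins.exec, Rg]
    · simp only [Ins.exec, up4]
      rfl
    · simp only [Ins.exec, up5]
      rfl
    · simp [Ins.exec, Rg]
    · rw [e]
      exact ih (by omega) hb''

theorem run_mul (h : At P o (mul o)) (hM : M * L < 2 ^ S) (hb : Bd S (Rg n L M t c a 1)) :
    Rn P A x S (⟨o, Rg n L M t c a 1⟩, q) (⟨o + 7, Rg n L (M * L) (M * L) 0 a 1⟩, q) := by
  rw [bd_Rg] at hb
  have h0 := Nat.two_pow_pos S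
  have hb1 : Bd S (Rg n L M 0 c a 1) := bd_Rg.2 ⟨hb.1, hb.2.1, hb.2.2.1, h0, hb.2.2.2.2⟩
  have hb2 : Bd S (Rg n L M 0 L a 1) := bd_Rg.2 ⟨hb.1, hb.2.1, hb.2.2.1, h0, hb.2.1, hb.2.2.2.2.2⟩
  have hb3 : Bd S (Rg n L (M * L) (M * L) 0 a 1) :=
    bd_Rg.2 ⟨hb.1, hb.2.1, hM, hM, h0, hb.2.2.2.2.2⟩
  have key := run_mul_loop (P := P) (A := A) (x := x) (q := q) (n := n) (L := L) (a := a)
    h.tail.tail.head h.tail.tail.tail.head h.tail.tail.tail.tail.head
    h.tail.tail.tail.tail.tail.head (t := 0) (M := M) (c := L) (by omega) hb2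
  rw [Nat.zero_add] at key
  refine Rn.trans (Rn.one' h.head (pc' := o + 1) (ρ' := Rg n L M 0 c a 1) ?_ hb1)
    (Rn.trans (Rn.one' h.tail.head (pc' := o + 2) (ρ' := Rg n L M 0 L a 1) ?_ hb2)
    (Rn.trans key (Rn.one' h.tail.tail.tail.tail.tail.tail.head (pc' := o + 7) ?_ hb3)))
  · simp only [Ins.exec, up4]
  · simp only [Ins.exec, up5]
    rfl
  · simp only [Ins.exec, up3]
    rfl

theorem muls_length (o k : ℕ) : (muls o k).length = 7 * k := by
  induction k generalizing o with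
  | zero => rfl
  | succ k ih =>
    rw [muls, List.length_append, ih]
    simp only [mul, List.length_cons, List.length_nil]
    ring

theorem run_muls (k : ℕ) (h : At P o (muls o k)) (hM : M * L ^ k < 2 ^ S) (hL : 1 ≤ L)
    (ht : t < 2 ^ S) (hb : Bd S (Rg n L M t c a 1)) :
    ∃ t' c', t' < 2 ^ S ∧ c' < 2 ^ S ∧
    Rn P A x S (⟨o, Rg n L M t c a 1⟩, q) (⟨o + 7 * k, Rg n L (M * L ^ k) t' c' a 1⟩, q) := by
  induction k generalizing o M t c with
  | zero =>
    rw [bd_Rg] at hb
    exact ⟨t, c, ht, hb.2.2.2.2.1, by simpa using Rn.refl _⟩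
  | succ k ih =>
    have e : M * L ^ (k + 1) = M * L * L ^ k := by ring
    have h1 : M * L < 2 ^ S := by
      refine lt_of_le_of_lt ?_ hM
      rw [e]
      exact Nat.le_mul_of_pos_right _ (pow_pos (by omega) _)
    have hr := run_mul (P := P) (A := A) (x := x) (q := q) h.left h1 hb
    rw [bd_Rg] at hb
    have hb3 : Bd S (Rg n L (M * L) (M * L) 0 a 1) :=
      bd_Rg.2 ⟨hb.1, hb.2.1, h1, h1, Nat.two_pow_pos S, hb.2.2.2.2.2⟩
    obtain ⟨t', c', ht', hc', hrun⟩ := ih (o := o + 7) (M := M * L) (t := M * L) (c := 0)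
      h.right (by rw [← e]; exact hM) h1 hb3
    refine ⟨t', c', ht', hc', ?_⟩
    rw [e, show o + 7 * (k + 1) = o + 7 + 7 * k by ring]
    exact hr.trans hrun

theorem run_pow_loop (h1 : P[o + 1]? = some (.jzero 3 (o + 5)))
    (h2 : P[o + 2]? = some (.add 6 6 6)) (h3 : P[o + 3]? = some (.sub 3 3 7))
    (h4 : P[o + 4]? = some (.jzero 0 (o + 1))) (ha : a * 2 ^ M < 2 ^ S)
    (hb : Bd S (Rg n L M t c a 1)) :
    Rn P A x S (⟨o + 1, Rg n L M t c a 1⟩, q) (⟨o + 5, Rg n L 0 t c (a * 2 ^ M) 1⟩, q) := by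
  induction M generalizing a with
  | zero =>
    refine Rn.one' h1 ?_ (by simpa using hb)
    simp [Ins.exec, Rg]
  | succ M ih =>
    rw [bd_Rg] at hb
    have e : a * 2 ^ (M + 1) = (a + a) * 2 ^ M := by ring
    have h5 : a + a < 2 ^ S := by
      refine lt_of_le_of_lt ?_ ha
      rw [e]
      exact Nat.le_mul_of_pos_right _ (Nat.two_pow_pos M)
    have hb' : Bd S (Rg n L (M + 1) t c (a + a) 1) :=
      bd_Rg.2 ⟨hb.1, hb.2.1, hb.2.2.1, hb.2.2.2.1, hb.2.2.2.2.1, h5, hb.2.2.2.2.2.2⟩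
    have hb'' : Bd S (Rg n L M t c (a + a) 1) :=
      bd_Rg.2 ⟨hb.1, hb.2.1, by omega, hb.2.2.2.1, hb.2.2.2.2.1, h5, hb.2.2.2.2.2.2⟩
    refine Rn.trans (Rn.one' h1 (pc' := o + 2) ?_ (bd_Rg.2 hb)) (Rn.trans (Rn.one' h2
      (pc' := o + 3) (ρ' := Rg n L (M + 1) t c (a + a) 1) ?_ hb')
      (Rn.trans (Rn.one' h3 (pc' := o + 4) (ρ' := Rg n L M t c (a + a) 1) ?_ hb'')
      (Rn.trans (Rn.one' h4 (pc' := o + 1) (ρ' := Rg n L M t c (a + a) 1) ?_ hb'') ?_)))
    · simp [Ins.exec, Rg]
    · simp only [Ins.exec, up6]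
      rfl
    · simp only [Ins.exec, up3]
      rfl
    · simp [Ins.exec, Rg]
    · rw [e]
      exact ih (by rw [← e]; exact ha) hb''

theorem run_pow (h : At P o (pow o)) (ha : 2 ^ M < 2 ^ S) (hS : 1 < 2 ^ S)
    (hb : Bd S (Rg n L M t c a 1)) :
    Rn P A x S (⟨o, Rg n L M t c a 1⟩, q) (⟨o + 5, Rg n L 0 t c (2 ^ M) 1⟩, q) := by
  rw [bd_Rg] at hb
  have hb' : Bd S (Rg n L M t c 1 1) :=
    bd_Rg.2 ⟨hb.1, hb.2.1, hb.2.2.1, hb.2.2.2.1, hb.2.2.2.2.1, hS, hb.2.2.2.2.2.2⟩
  have key := run_pow_loop (P := P) (A := A) (x := x) (q := q) h.tail.head h.tail.tail.head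
    h.tail.tail.tail.head h.tail.tail.tail.tail.head (by simpa using ha) hb'
  rw [Nat.one_mul] at key
  refine Rn.trans (Rn.one' h.head (pc' := o + 1) (ρ' := Rg n L M t c 1 1) ?_ hb') key
  simp only [Ins.exec, up6]

theorem run_pre (h : At P o (pre e)) (hb : Bd S (Rg n L M t c a 1)) :
    Rn P A x S (⟨o, Rg n L M t c a 1⟩, q)
      (⟨o + (e + 1), Rg n L M t c a 1⟩, q ++ (List.replicate e true ++ [false])) := by
  induction e generalizing o q with
  | zero =>
    exact Rn.one (i := .put false) h.head rfl hb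
  | succ e ih =>
    have h' : At P o (.put true :: pre e) := h
    have := ih (q := q ++ [true]) h'.tail
    rw [show o + (e + 1 + 1) = o + 1 + (e + 1) by ring,
      show q ++ (List.replicate (e + 1) true ++ [false]) =
        q ++ [true] ++ (List.replicate e true ++ [false]) by
        rw [List.replicate_succ, List.append_assoc]; rfl]
    exact (Rn.one (i := .put true) h'.head rfl hb).trans this

theorem run_wra (h : At P o (wra o)) (hb : Bd S (Rg n L M t c a 1)) :
    Rn P A x S (⟨o, Rg n L M t c a 1⟩, q)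
      (⟨o + 5, Rg n L M t c 0 1⟩, q ++ (List.replicate a true ++ [false])) := by
  have h0 := h.head
  have h1 := h.tail.head
  have h2 := h.tail.tail.head
  have h3 := h.tail.tail.tail.head
  have h4 := h.tail.tail.tail.tail.head
  induction a generalizing q with
  | zero =>
    refine Rn.trans (Rn.one' h0 (pc' := o + 4) ?_ hb)
      (Rn.one (pc' := o + 5) (w := [false]) h4 rfl hb)
    simp [Ins.exec, Rg]
  | succ a ih =>
    have hb1 := bd_Rg.1 hb
    have hb' : Bd S (Rg n L M t c a 1) := bd_Rg.2 ⟨hb1.1, hb1.2.1, hb1.2.2.1, hb1.2.2.2.1,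
      hb1.2.2.2.2.1, by omega, hb1.2.2.2.2.2.2⟩
    rw [show q ++ (List.replicate (a + 1) true ++ [false]) =
        q ++ [true] ++ (List.replicate a true ++ [false]) by
        rw [List.replicate_succ, List.append_assoc]; rfl]
    refine Rn.trans (Rn.one' h0 (pc' := o + 1) ?_ hb)
      (Rn.trans (Rn.one (pc' := o + 2) (w := [true]) h1 rfl hb)
      (Rn.trans (Rn.one' h2 (pc' := o + 3) (ρ' := Rg n L M t c a 1) ?_ hb')
      (Rn.trans (Rn.one' h3 (pc' := o) (ρ' := Rg n L M t c a 1) ?_ hb') (ih hb'))))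
    · simp [Ins.exec, Rg]
    · simp only [Ins.exec, up6]
      rfl
    · simp [Ins.exec, Rg]

theorem run_cpy (h : At P o (cpy o)) (hx : x.length < 2 ^ S) (m : ℕ) (hn : n + m = x.length)
    (hb : Bd S (Rg n L M t c a 1)) :
    Rn P A x S (⟨o, Rg n L M t c a 1⟩, q)
      (⟨o + 7, Rg x.length L M t c a 1⟩, q ++ x.drop n) := by
  have h0 := h.head
  have h1 := h.tail.head
  have h2 := h.tail.tail.head
  have h3 := h.tail.tail.tail.head
  have h4 := h.tail.tail.tail.tail.head
  have h5 := h.tail.tail.tail.tail.tail.head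
  have h6 := h.tail.tail.tail.tail.tail.tail.head
  induction m generalizing n q with
  | zero =>
    have : n = x.length := by omega
    subst this
    rw [List.drop_length, List.append_nil]
    refine Rn.one' h0 ?_ hb
    simp [Ins.exec, Rg]
  | succ m ih =>
    have hb1 := bd_Rg.1 hb
    have hb' : Bd S (Rg (n + 1) L M t c a 1) := bd_Rg.2 ⟨by omega, hb1.2⟩
    have hlt : n < x.length := by omega
    have e : q ++ x.drop n = q ++ [x.getD n false] ++ x.drop (n + 1) := by
      rw [List.append_assoc, ← List.cons_getElem_drop_succ (h := hlt)]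
      simp [List.getD_eq_getElem?_getD, List.getElem?_eq_getElem hlt]
    rw [e]
    have hlast : Rn P A x S (⟨o + 5, Rg n L M t c a 1⟩, q ++ [x.getD n false])
        (⟨o, Rg (n + 1) L M t c a 1⟩, q ++ [x.getD n false]) := by
      refine Rn.trans (Rn.one' h5 (pc' := o + 6) (ρ' := Rg (n + 1) L M t c a 1) ?_ hb')
        (Rn.one' h6 (pc' := o) ?_ hb')
      · simp only [Ins.exec, up1]
        rfl
      · simp [Ins.exec, Rg]
    have hfirst : Rn P A x S (⟨o, Rg n L M t c a 1⟩, q) (⟨o + 1, Rg n L M t c a 1⟩, q) := by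
      refine Rn.one' h0 ?_ hb
      have : ¬ x.length ≤ n := by omega
      simp [Ins.exec, Rg, this]
    refine hfirst.trans (Rn.trans ?_ (hlast.trans (ih (by omega) hb')))
    cases hv : x.getD n false with
    | true =>
      refine Rn.trans (Rn.one' h1 (pc' := o + 4) ?_ hb)
        (Rn.one (pc' := o + 5) (w := [true]) h4 rfl hb)
      simp only [Ins.exec]
      rw [show Rg n L M t c a 1 1 = n from rfl, hv]
      simp
    | false =>
      refine Rn.trans (Rn.one' h1 (pc' := o + 2) ?_ hb)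
        (Rn.trans (Rn.one (pc' := o + 3) (w := [false]) h2 rfl hb)
        (Rn.one' h3 (pc' := o + 5) ?_ hb))
      · simp only [Ins.exec]
        rw [show Rg n L M t c a 1 1 = n from rfl, hv]
        simp
      · simp [Ins.exec, Rg]

end Blocks

/-! ### The program -/

/-- the program -/
def prog (k e D : ℕ) : List Ins :=
  [.set 7 1] ++ (cnt 1 ++ (siz 4 ++ ([.set 3 D] ++ (muls 10 k ++ (pow (10 + 7 * k) ++
    (pre e ++ (wra (10 + 7 * k + 5 + (e + 1)) ++ (cpy (10 + 7 * k + 5 + (e + 1) + 5) ++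
      fin (10 + 7 * k + 5 + (e + 1) + 5 + 7)))))))))

theorem At.right' {P : List Ins} {o o' : ℕ} {b b' : List Ins} (h : At P o (b ++ b'))
    (ho : o + b.length = o') : At P o' b' := ho ▸ h.right

theorem guess_notMem_muls (l : ℕ) : ∀ (o k : ℕ), Ins.guess l ∉ muls o k
  | _, 0 => by simp [muls]
  | o, k + 1 => by
    rw [muls, List.mem_append, not_or]
    exact ⟨by simp [mul], guess_notMem_muls l (o + 7) k⟩

theorem guess_notMem (k e D l : ℕ) : Ins.guess l ∉ prog k e D := by
  simp only [prog, List.mem_append, not_or]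
  refine ⟨by simp, by simp [cnt], by simp [siz], by simp, guess_notMem_muls _ _ _,
    by simp [pow], by simp [pre, List.mem_replicate], by simp [wra], by simp [cpy], by simp [fin]⟩

/-- the bound for the registers -/
def SS (k D : ℕ) (x : List Bool) : ℕ := D * (1 + Nat.size x.length) ^ k + Nat.size x.length + 2

theorem run_prog (k e D : ℕ) (A : Oracle) (x : List Bool) :
    ∃ c, Rn (prog k e D) A x (SS k D x) (⟨0, fun _ => 0⟩, []) c ∧
      (prog k e D)[c.1.pc]? = some (Ins.halt (A (List.replicate e true ++ false ::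
      (List.replicate (2 ^ (D * (Nat.size x.length + 1) ^ k)) true ++ false :: x)))) := by
  set P := prog k e D with hP
  have H : At P 0 P := fun j _ => by rw [Nat.zero_add]
  rw [hP] at H
  nth_rewrite 2 [prog] at H
  rw [← hP] at H
  have H0 := H.left
  have H1 := H.right' (o' := 1) rfl
  have H2 := H1.right' (o' := 4) rfl
  have H3 := H2.right' (o' := 9) rfl
  have H4 := H3.right' (o' := 10) rfl
  have H5 := H4.right' (o' := 10 + 7 * k) (by rw [muls_length])
  have H6 := H5.right' (o' := 10 + 7 * k + 5) rfl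
  have H7 := H6.right' (o' := 10 + 7 * k + 5 + (e + 1)) (by simp [pre])
  have H8 := H7.right' (o' := 10 + 7 * k + 5 + (e + 1) + 5) rfl
  have H9 := H8.right' (o' := 10 + 7 * k + 5 + (e + 1) + 5 + 7) rfl
  set S := SS k D x with hS
  set L := 1 + Nat.size x.length with hL
  set V := D * L ^ k with hV
  have hSV : S = V + Nat.size x.length + 2 := rfl
  have hLk : 1 ≤ L ^ k := Nat.one_le_pow _ _ (by omega)
  have b1 : x.length < 2 ^ S := lt_of_lt_of_le (Nat.lt_size_self _)
    (Nat.pow_le_pow_right (by norm_num) (by omega))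
  have b2 : L < 2 ^ S := lt_of_lt_of_le (Nat.lt_two_pow_self)
    (Nat.pow_le_pow_right (by norm_num) (by omega))
  have b3 : V < 2 ^ S := lt_of_lt_of_le (Nat.lt_two_pow_self)
    (Nat.pow_le_pow_right (by norm_num) (by omega))
  have b4 : D < 2 ^ S := lt_of_le_of_lt (Nat.le_mul_of_pos_right _ hLk) b3
  have b5 : 2 ^ V < 2 ^ S := Nat.pow_lt_pow_right (by norm_num) (by omega)
  have b6 : 1 < 2 ^ S := Nat.one_lt_two_pow (by omega)
  have b0 := Nat.two_pow_pos S
  have hz : (fun _ : ℕ => 0) = Rg 0 0 0 0 0 0 0 := by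
    funext r
    match r with
    | 0 | 1 | 2 | 3 | 4 | 5 | 6 | 7 => rfl
    | r + 8 => rfl
  have r0 : Rn P A x S (⟨0, fun _ => 0⟩, []) (⟨1, Rg 0 0 0 0 0 0 1⟩, []) := by
    refine Rn.one' H0.head ?_ (bd_Rg.2 ⟨b0, b0, b0, b0, b0, b0, b6⟩)
    rw [hz]
    simp only [Ins.exec, up7]
  have r1 := run_cnt (A := A) (q := []) H1.left b1 x.length (Nat.zero_add _)
    (show Bd S (Rg 0 0 0 0 0 0 1) from bd_Rg.2 ⟨b0, b0, b0, b0, b0, b0, b6⟩)
  have r2 := run_siz (A := A) (x := x) (q := []) H2.left b1 b2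
    (show Bd S (Rg x.length 0 0 0 0 0 1) from bd_Rg.2 ⟨b1, b0, b0, b0, b0, b0, b6⟩)
  have r3 : Rn P A x S (⟨9, Rg 0 L 0 0 0 0 1⟩, []) (⟨10, Rg 0 L D 0 0 0 1⟩, []) := by
    refine Rn.one' H3.head ?_ (bd_Rg.2 ⟨b0, b2, b4, b0, b0, b0, b6⟩)
    simp only [Ins.exec, up3]
  obtain ⟨t, c, ht, hc, r4⟩ := run_muls (A := A) (x := x) (q := []) k H4.left (M := D) (L := L)
    b3 (by omega) b0 (show Bd S (Rg 0 L D 0 0 0 1) from bd_Rg.2 ⟨b0, b2, b4, b0, b0, b0, b6⟩)
  have r5 := run_pow (A := A) (x := x) (q := []) H5.left b5 b6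
    (show Bd S (Rg 0 L V t c 0 1) from bd_Rg.2 ⟨b0, b2, b3, ht, hc, b0, b6⟩)
  have r6 := run_pre (A := A) (x := x) (q := []) H6.left
    (show Bd S (Rg 0 L 0 t c (2 ^ V) 1) from bd_Rg.2 ⟨b0, b2, b0, ht, hc, b5, b6⟩)
  have r7 := run_wra (A := A) (x := x) (q := [] ++ (List.replicate e true ++ [false])) H7.left
    (show Bd S (Rg 0 L 0 t c (2 ^ V) 1) from bd_Rg.2 ⟨b0, b2, b0, ht, hc, b5, b6⟩)
  have r8 := run_cpy (A := A) (q := [] ++ (List.replicate e true ++ [false]) ++
    (List.replicate (2 ^ V) true ++ [false])) H8.left b1 x.length (Nat.zero_add _)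
    (show Bd S (Rg 0 L 0 t c 0 1) from bd_Rg.2 ⟨b0, b2, b0, ht, hc, b0, b6⟩)
  set o := 10 + 7 * k + 5 + (e + 1) + 5 + 7 with ho
  have hq : [] ++ (List.replicate e true ++ [false]) ++
      (List.replicate (2 ^ V) true ++ [false]) ++ x.drop 0 =
      List.replicate e true ++ false ::
      (List.replicate (2 ^ (D * (Nat.size x.length + 1) ^ k)) true ++ false :: x) := by
    rw [hV, hL, Nat.add_comm 1]
    simp
  rw [hq] at r8
  set Q := List.replicate e true ++ false ::
      (List.replicate (2 ^ (D * (Nat.size x.length + 1) ^ k)) true ++ false :: x) with hQ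
  have r9 : Rn P A x S (⟨o, Rg x.length L 0 t c 0 1⟩, Q)
      (⟨if A Q = true then o + 2 else o + 1, Rg x.length L 0 t c 0 1⟩, []) :=
    Relation.ReflTransGen.single ⟨Step.ask (σ := ⟨o, Rg x.length L 0 t c 0 1⟩) H9.head,
      bd_Rg.2 ⟨b1, b2, b0, ht, hc, b0, b6⟩⟩
  refine ⟨_, r0.trans (r1.trans (r2.trans (r3.trans (r4.trans (r5.trans (r6.trans (r7.trans
    (r8.trans r9)))))))), ?_⟩
  cases hA : A Q with
  | true => exact H9.tail.tail.head
  | false => exact H9.tail.head

/-- The piece `P_prog`, for `1 ≤ k`. -/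
theorem p_prog (k e D : ℕ) (hk : 1 ≤ k) : ∃ (P : List Ins) (c : ℕ), (∀ l, Ins.guess l ∉ P) ∧
    ∀ (A : Oracle) (x : List Bool), InSpace P A x [] (c * Nat.size x.length ^ k + c) ∧
    Halts P A x [] (A (List.replicate e true ++ false ::
      (List.replicate (2 ^ (D * (Nat.size x.length + 1) ^ k)) true ++ false :: x))) := by
  refine ⟨prog k e D, D * 2 ^ k + D + 3, guess_notMem k e D, fun A x => ?_⟩
  obtain ⟨c, hc, hb⟩ := run_prog k e D A x
  refine ⟨fun d hd r => ?_, halts_of_run hc hb⟩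
  have h1 := bounded_of_run (guess_notMem k e D) hc (fun _ => Nat.two_pow_pos _) hb hd r
  refine (Nat.size_le.2 h1).trans ?_
  unfold SS
  rcases Nat.eq_zero_or_pos (Nat.size x.length) with h0 | h0
  · rw [h0]
    simp only [Nat.add_zero, Nat.one_pow]
    omega
  · set s := Nat.size x.length with hs
    have h2 : (1 + s) ^ k ≤ 2 ^ k * s ^ k := by
      rw [← mul_pow]
      exact Nat.pow_le_pow_left (by omega) k
    have h3 : s ≤ s ^ k := Nat.le_self_pow (by omega) s
    have h4 : D * (1 + s) ^ k ≤ D * 2 ^ k * s ^ k := by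
      rw [mul_assoc]
      exact Nat.mul_le_mul_left D h2
    calc D * (1 + s) ^ k + s + 2 ≤ D * 2 ^ k * s ^ k + s ^ k + 2 := by omega
      _ ≤ (D * 2 ^ k + D + 3) * s ^ k + (D * 2 ^ k + D + 3) := by
        have : (D * 2 ^ k + D + 3) * s ^ k = D * 2 ^ k * s ^ k + s ^ k + (D * s ^ k + 2 * s ^ k) := by
          ring
        rw [this]
        omega

end Pool.Agent.W2helper65.PL
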