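import Pool.Agent.W2helper65.PL.Prog

/-!
# Programs without `guess` give at most one answer
-/

namespace Pool.Agent.W2helper65.PL

open Pool.Agent.NPC Pool.Agent.H620R2.Gauge Pool.Agent.W2helper86.PL

/-- The piece `P_det`. -/
theorem p_det (P : List Ins) (hg : ∀ l, Ins.guess l ∉ P) (A : Oracle) (x a : List Bool)
    (b b' : Bool) (h : Halts P A x a b) (h' : Halts P A x a b') : b = b' := by
  obtain ⟨c, hc, hb⟩ := h
  obtain ⟨c', hc', hb'⟩ := h'
  have hu : Relator.RightUnique (Step P A x a) := fun _ _ _ h1 h2 => step_det hg h1 h2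
  have key : ∀ {d d' : State × List Bool} {e : Bool}, P[d.1.pc]? = some (Ins.halt e) →
      Relation.ReflTransGen (Step P A x a) d d' → d = d' := by
    intro d d' e he hd
    rcases Relation.ReflTransGen.cases_head hd with h1 | ⟨_, h1, -⟩
    · exact h1
    · exact (stuck he h1).elim
  have : c = c' := by
    rcases Relation.ReflTransGen.total_of_right_unique hu hc hc' with h1 | h1
    · exact key hb h1
    · exact (key hb' h1).symm
  subst this
  rw [hb] at hb'
  simpa using hb'

end Pool.Agent.W2helper65.PL
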